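import Mathlib

/-!
# The reduced Burau representation at a complex parameter, in the symmetric gauge

`s` is a square root of the parameter `q`. The letter `a` replaces the coordinate `c a` by
`-s² c a + s (c (a-1) + c (a+1))` and leaves the other coordinates unchanged.
-/

set_option autoImplicit false

namespace Pool.Agent.Helper99.ZB

open Matrix

/-- indicator vector -/
def del (n a : ℕ) : Fin n → ℂ := fun i => if (i : ℕ) = a then 1 else 0

/-- the row vector of the letter `a` -/
def ell (s : ℂ) (n a : ℕ) : Fin n → ℂ := fun j =>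
  if (j : ℕ) = a then 1 + s ^ 2 else if (j : ℕ) + 1 = a ∨ a + 1 = (j : ℕ) then -s else 0

/-- the rank one matrix of the letter `a` -/
def Pm (s : ℂ) (n a : ℕ) : Matrix (Fin n) (Fin n) ℂ := vecMulVec (del n a) (ell s n a)

/-- the matrix of the letter `a` -/
def Bm (s : ℂ) (n a : ℕ) : Matrix (Fin n) (Fin n) ℂ := 1 - Pm s n a

/-- the matrix of a word -/
def W (s : ℂ) (n : ℕ) (w : List ℕ) : Matrix (Fin n) (Fin n) ℂ := (w.map (Bm s n)).prod

variable {s : ℂ} {n : ℕ}

@[simp] theorem W_nil : W s n [] = 1 := rfl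

@[simp] theorem W_cons (a : ℕ) (u : List ℕ) : W s n (a :: u) = Bm s n a * W s n u := rfl

@[simp] theorem W_append (u v : List ℕ) : W s n (u ++ v) = W s n u * W s n v := by
  unfold W
  rw [List.map_append, List.prod_append]

theorem ell_dot_del (a b : ℕ) (hb : b < n) :
    ell s n a ⬝ᵥ del n b = if b = a then 1 + s ^ 2 else if b + 1 = a ∨ a + 1 = b then -s else 0 := by
  unfold dotProduct
  rw [Finset.sum_eq_single (⟨b, hb⟩ : Fin n)]
  · simp [del, ell]
  · intro i _ hi
    have : (i : ℕ) ≠ b := fun h => hi (Fin.ext h)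
    simp [del, this]
  · intro h
    exact absurd (Finset.mem_univ _) h

theorem Pm_mul_Pm (a b : ℕ) :
    Pm s n a * Pm s n b = (ell s n a ⬝ᵥ del n b) • vecMulVec (del n a) (ell s n b) := by
  unfold Pm
  rw [vecMulVec_mul_vecMulVec, vecMulVec_smul]

theorem Pm_sq {a : ℕ} (ha : a < n) : Pm s n a * Pm s n a = (1 + s ^ 2) • Pm s n a := by
  rw [Pm_mul_Pm, ell_dot_del a a ha, if_pos rfl]
  rfl

theorem Pm_comm {a b : ℕ} (hab : a + 2 ≤ b) (hb : b < n) :
    Pm s n a * Pm s n b = 0 ∧ Pm s n b * Pm s n a = 0 := by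
  rw [Pm_mul_Pm, Pm_mul_Pm, ell_dot_del a b hb, ell_dot_del b a (by omega)]
  constructor
  · rw [if_neg (by omega), if_neg (by omega), zero_smul]
  · rw [if_neg (by omega), if_neg (by omega), zero_smul]

theorem Pm_braid {a : ℕ} (ha : a + 1 < n) :
    Pm s n a * Pm s n (a + 1) * Pm s n a = (s ^ 2) • Pm s n a ∧
      Pm s n (a + 1) * Pm s n a * Pm s n (a + 1) = (s ^ 2) • Pm s n (a + 1) := by
  have h1 := ell_dot_del (s := s) a (a + 1) ha
  have h2 := ell_dot_del (s := s) (a + 1) a (by omega : a < n)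
  rw [if_neg (by omega), if_pos (by omega)] at h1 h2
  constructor
  · rw [Pm_mul_Pm, h1, smul_mul_assoc]
    unfold Pm
    rw [vecMulVec_mul_vecMulVec, h2, vecMulVec_smul, smul_smul]
    congr 1
    ring
  · rw [Pm_mul_Pm, h2, smul_mul_assoc]
    unfold Pm
    rw [vecMulVec_mul_vecMulVec, h1, vecMulVec_smul, smul_smul]
    congr 1
    ring

theorem Bm_comm {a b : ℕ} (hab : a + 2 ≤ b) (hb : b < n) :
    Bm s n a * Bm s n b = Bm s n b * Bm s n a := by
  obtain ⟨h1, h2⟩ := Pm_comm (s := s) hab hb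
  unfold Bm
  have e1 : (1 - Pm s n a) * (1 - Pm s n b) =
      1 - Pm s n a - Pm s n b + Pm s n a * Pm s n b := by noncomm_ring
  have e2 : (1 - Pm s n b) * (1 - Pm s n a) =
      1 - Pm s n a - Pm s n b + Pm s n b * Pm s n a := by noncomm_ring
  rw [e1, e2, h1, h2]

theorem Bm_braid {a : ℕ} (ha : a + 1 < n) :
    Bm s n a * Bm s n (a + 1) * Bm s n a = Bm s n (a + 1) * Bm s n a * Bm s n (a + 1) := by
  obtain ⟨h1, h2⟩ := Pm_braid (s := s) ha
  have h3 := Pm_sq (s := s) (by omega : a < n)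
  have h4 := Pm_sq (s := s) ha
  unfold Bm
  generalize Pm s n a = P at *
  generalize Pm s n (a + 1) = Q at *
  have e1 : (1 - P) * (1 - Q) * (1 - P) = 1 - P - P - Q + P * Q + Q * P + P * P - P * Q * P := by
    noncomm_ring
  have e2 : (1 - Q) * (1 - P) * (1 - Q) = 1 - Q - Q - P + P * Q + Q * P + Q * Q - Q * P * Q := by
    noncomm_ring
  rw [e1, e2, h1, h2, h3, h4, add_smul, add_smul, one_smul, one_smul]
  abel

theorem Bm_sq {a : ℕ} (ha : a < n) :
    Bm s n a * Bm s n a = 1 - (1 - s ^ 2) • Pm s n a := by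
  have h3 := Pm_sq (s := s) ha
  unfold Bm
  generalize Pm s n a = P at *
  have e1 : (1 - P) * (1 - P) = 1 - P - P + P * P := by noncomm_ring
  rw [e1, h3, add_smul, sub_smul, one_smul]
  abel

/-- The determinant is affine in the scalar in front of the rank one matrix. -/
theorem det_affine {a : ℕ} (ha : a < n) (g : Matrix (Fin n) (Fin n) ℂ) (t : ℂ) :
    det (1 - (1 - t • Pm s n a) * g) =
      det (1 - g) + t * det (updateRow (1 - g) ⟨a, ha⟩ (ell s n a ᵥ* g)) := by
  have e : 1 - (1 - t • Pm s n a) * g =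
      updateRow (1 - g) ⟨a, ha⟩ ((1 - g) ⟨a, ha⟩ + t • (ell s n a ᵥ* g)) := by
    have e0 : 1 - (1 - t • Pm s n a) * g = (1 - g) + t • (Pm s n a * g) := by
      rw [sub_mul, one_mul, smul_mul_assoc]
      abel
    rw [e0]
    unfold Pm
    rw [vecMulVec_mul]
    ext i j
    by_cases hi : i = ⟨a, ha⟩
    · subst hi
      simp [updateRow_self, vecMulVec_apply, del]
    · have hi' : (i : ℕ) ≠ a := fun h => hi (Fin.ext h)
      rw [updateRow_ne hi]
      simp [vecMulVec_apply, del, hi']
  rw [e, det_updateRow_add, det_updateRow_smul, updateRow_eq_self]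

/-- the quadratic relation for `det (1 - W)` -/
theorem det_sq {j : ℕ} (hj : j < n) (x y : List ℕ) :
    det (1 - W s n (x ++ j :: j :: y)) =
      s ^ 2 * det (1 - W s n (x ++ y)) + (1 - s ^ 2) * det (1 - W s n (x ++ j :: y)) := by
  have c : ∀ X : Matrix (Fin n) (Fin n) ℂ, det (1 - W s n x * (X * W s n y)) =
      det (1 - X * (W s n y * W s n x)) := by
    intro X
    rw [det_one_sub_mul_comm, mul_assoc]
  have e1 : W s n (x ++ j :: j :: y) = W s n x * ((Bm s n j * Bm s n j) * W s n y) := by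
    simp [mul_assoc]
  have e2 : W s n (x ++ j :: y) = W s n x * (Bm s n j * W s n y) := by simp
  have e3 : W s n (x ++ y) = W s n x * (1 * W s n y) := by simp
  rw [e1, e2, e3, c, c, c, Bm_sq hj, one_mul]
  have f1 := det_affine (s := s) hj (W s n y * W s n x) (1 - s ^ 2)
  have f2 := det_affine (s := s) hj (W s n y * W s n x) 1
  rw [one_smul] at f2
  change det (1 - Bm s n j * (W s n y * W s n x)) = _ at f2
  rw [f1, f2]
  ring

/-- `u` does not contain the top letter: the last row -/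
theorem W_last {u : List ℕ} (hu : ∀ a ∈ u, a < n) (j : Fin (n + 1)) :
    W s (n + 1) u (Fin.last n) j = if j = Fin.last n then 1 else 0 := by
  induction u generalizing j with
  | nil =>
    rw [W_nil, one_apply]
    simp only [eq_comm]
  | cons a u ih =>
    have ha := hu a (by simp)
    have hlast : del (n + 1) a (Fin.last n) = 0 := by
      unfold del
      rw [if_neg]
      rw [Fin.val_last]
      omega
    rw [W_cons]
    unfold Bm Pm
    rw [sub_mul, one_mul, vecMulVec_mul, Matrix.sub_apply, vecMulVec_apply, hlast, zero_mul, sub_zero]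
    exact ih (fun b hb => hu b (List.mem_cons_of_mem _ hb)) j

/-- `u` does not contain the top letter: the upper left block -/
theorem W_castSucc {u : List ℕ} (hu : ∀ a ∈ u, a < n) (i j : Fin n) :
    W s (n + 1) u i.castSucc j.castSucc = W s n u i j := by
  induction u generalizing i j with
  | nil =>
    rw [W_nil, W_nil, one_apply, one_apply]
    simp
  | cons a u ih =>
    have hu' : ∀ b ∈ u, b < n := fun b hb => hu b (List.mem_cons_of_mem _ hb)
    rw [W_cons, W_cons]
    unfold Bm Pm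
    rw [sub_mul, one_mul, vecMulVec_mul, Matrix.sub_apply, vecMulVec_apply, sub_mul, one_mul,
      vecMulVec_mul, Matrix.sub_apply, vecMulVec_apply, ih hu']
    have e : (ell s (n + 1) a ᵥ* W s (n + 1) u) j.castSucc = (ell s n a ᵥ* W s n u) j := by
      change ∑ k : Fin (n + 1), ell s (n + 1) a k * W s (n + 1) u k j.castSucc =
        ∑ k : Fin n, ell s n a k * W s n u k j
      rw [Fin.sum_univ_castSucc, W_last hu', if_neg (Fin.castSucc_ne_last j), mul_zero, add_zero]
      refine Finset.sum_congr rfl fun k _ => ?_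
      rw [ih hu']
      rfl
    rw [e]
    rfl

/-- no top letter -/
theorem det_top_zero {u : List ℕ} (hu : ∀ a ∈ u, a < n) : det (1 - W s (n + 1) u) = 0 := by
  apply det_eq_zero_of_row_eq_zero (Fin.last n)
  intro j
  rw [Matrix.sub_apply, W_last hu, one_apply]
  simp only [eq_comm, sub_self]

/-- the common fixed vector -/
noncomputable def U (s : ℂ) (k : ℕ) : ℂ := (1 - s ^ (2 * (k + 1))) / (s ^ k * (1 - s ^ 2))

theorem U_zero (h : s ^ 2 ≠ 1) : U s 0 = 1 := by
  unfold U
  have : 1 - s ^ 2 ≠ 0 := fun h' => h (sub_eq_zero.1 h').symm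
  simp [this]

theorem U_one (h : s ^ 2 ≠ 1) (h0 : s ≠ 0) : (1 + s ^ 2) * U s 0 = s * U s 1 := by
  unfold U
  have : 1 - s ^ 2 ≠ 0 := fun h' => h (sub_eq_zero.1 h').symm
  field_simp
  ring

theorem U_rec (h : s ^ 2 ≠ 1) (h0 : s ≠ 0) (k : ℕ) :
    (1 + s ^ 2) * U s (k + 1) = s * U s k + s * U s (k + 2) := by
  unfold U
  have : 1 - s ^ 2 ≠ 0 := fun h' => h (sub_eq_zero.1 h').symm
  field_simp
  ring

theorem U_ne_zero (h1 : ‖s‖ < 1) (h0 : s ≠ 0) (k : ℕ) : U s k ≠ 0 := by
  have hp : ∀ m : ℕ, m ≠ 0 → (1 : ℂ) - s ^ m ≠ 0 := by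
    intro m hm h
    have h2 : ‖s ^ m‖ = 1 := by rw [← sub_eq_zero.1 h]; simp
    rw [norm_pow] at h2
    exact absurd h2 (pow_lt_one₀ (norm_nonneg _) h1 hm).ne
  unfold U
  exact div_ne_zero (hp _ (by omega)) (mul_ne_zero (pow_ne_zero _ h0) (hp 2 (by omega)))

theorem ell_dot_U (h : s ^ 2 ≠ 1) (h0 : s ≠ 0) {a : ℕ} (ha : a < n) :
    ell s (n + 1) a ⬝ᵥ (fun i : Fin (n + 1) => U s i) = 0 := by
  have key : ∀ (m : ℕ) (f : ℕ → ℂ), ∑ i : Fin m, f i = ∑ i ∈ Finset.range m, f i := by
    intro m f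
    rw [Finset.sum_range]
  unfold dotProduct ell
  rw [key (n + 1) fun i => (if i = a then 1 + s ^ 2 else if i + 1 = a ∨ a + 1 = i then -s else 0) * U s i]
  cases a with
  | zero =>
    obtain ⟨m, rfl⟩ : ∃ m, n = m + 1 := ⟨n - 1, by omega⟩
    rw [Finset.sum_range_succ', Finset.sum_range_succ', Finset.sum_eq_zero]
    · have := U_one h h0
      simp
      linear_combination this
    · intro i _
      rw [if_neg (by omega), if_neg (by omega), zero_mul]
  | succ a =>
    rw [← Finset.sum_subset (s₁ := {a, a + 1, a + 2})]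
    · rw [Finset.sum_insert (by simp), Finset.sum_insert (by simp), Finset.sum_singleton]
      have := U_rec h h0 a
      rw [if_neg (by omega), if_pos (by omega), if_pos rfl, if_neg (by omega), if_pos (by omega)]
      linear_combination this
    · intro i hi
      simp only [Finset.mem_insert, Finset.mem_singleton] at hi
      rw [Finset.mem_range]
      omega
    · intro i _ hi
      simp only [Finset.mem_insert, Finset.mem_singleton, not_or] at hi
      rw [if_neg (by omega), if_neg (by omega), zero_mul]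

theorem ell_dot_U_top (h : s ^ 2 ≠ 1) (h0 : s ≠ 0) :
    ell s (n + 1) n ⬝ᵥ (fun i : Fin (n + 1) => U s i) = s * U s (n + 1) := by
  have key : ∀ (m : ℕ) (f : ℕ → ℂ), ∑ i : Fin m, f i = ∑ i ∈ Finset.range m, f i := by
    intro m f
    rw [Finset.sum_range]
  unfold dotProduct ell
  rw [key (n + 1) fun i => (if i = n then 1 + s ^ 2 else if i + 1 = n ∨ n + 1 = i then -s else 0) * U s i]
  cases n with
  | zero =>
    have := U_one h h0
    simp
    linear_combination this
  | succ n =>
    rw [Finset.sum_range_succ, Finset.sum_range_succ, Finset.sum_eq_zero]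
    · have := U_rec h h0 n
      rw [if_neg (by omega), if_pos (by omega), if_pos rfl]
      linear_combination this
    · intro i hi
      rw [Finset.mem_range] at hi
      rw [if_neg (by omega), if_neg (by omega), zero_mul]

theorem W_mulVec_U (h : s ^ 2 ≠ 1) (h0 : s ≠ 0) {u : List ℕ} (hu : ∀ a ∈ u, a < n) :
    W s (n + 1) u *ᵥ (fun i : Fin (n + 1) => U s i) = fun i : Fin (n + 1) => U s i := by
  induction u with
  | nil => rw [W_nil, one_mulVec]
  | cons a u ih =>
    rw [W_cons, ← mulVec_mulVec, ih fun b hb => hu b (List.mem_cons_of_mem _ hb)]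
    unfold Bm Pm
    rw [sub_mulVec, one_mulVec, vecMulVec_mulVec, ell_dot_U h h0 (hu a (by simp))]
    simp

/-- one top letter -/
theorem det_top_one (h : s ^ 2 ≠ 1) (h0 : s ≠ 0) {u v : List ℕ} (hu : ∀ a ∈ u, a < n)
    (hv : ∀ a ∈ v, a < n) :
    U s n * det (1 - W s (n + 1) (u ++ n :: v)) = s * U s (n + 1) * det (1 - W s n (u ++ v)) := by
  obtain ⟨g, hg⟩ : ∃ g, g = W s (n + 1) (v ++ u) := ⟨_, rfl⟩
  have hvu : ∀ a ∈ v ++ u, a < n := by
    intro a ha
    rcases List.mem_append.1 ha with ha | ha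
    · exact hv a ha
    · exact hu a ha
  have hn : n < n + 1 := Nat.lt_succ_self n
  have hlast : (⟨n, hn⟩ : Fin (n + 1)) = Fin.last n := rfl
  have e1 : det (1 - W s (n + 1) (u ++ n :: v)) =
      det (updateRow (1 - g) (Fin.last n) (ell s (n + 1) n ᵥ* g)) := by
    have f := det_affine (s := s) hn g 1
    rw [one_smul, hg, det_top_zero hvu, ← hg, zero_add, one_mul, hlast] at f
    rw [← f, W_append, W_cons, det_one_sub_mul_comm, hg, W_append, mul_assoc]
    rfl
  have e2 : det (1 - W s n (u ++ v)) = det (1 - W s n (v ++ u)) := by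
    rw [W_append, W_append, det_one_sub_mul_comm]
  obtain ⟨M, hM⟩ : ∃ M, M = updateRow (1 - g) (Fin.last n) (ell s (n + 1) n ᵥ* g) := ⟨_, rfl⟩
  obtain ⟨v0, hv0⟩ : ∃ v0 : Fin (n + 1) → ℂ, v0 = fun i : Fin (n + 1) => U s i := ⟨_, rfl⟩
  have hgv : g *ᵥ v0 = v0 := by
    rw [hg, hv0]
    exact W_mulVec_U h h0 hvu
  have hMv : M *ᵥ v0 = Pi.single (Fin.last n) (s * U s (n + 1)) := by
    ext i
    by_cases hi : i = Fin.last n
    · subst hi
      rw [Pi.single_eq_same]
      change M (Fin.last n) ⬝ᵥ v0 = _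
      rw [hM, updateRow_self, ← dotProduct_mulVec, hgv, hv0]
      exact ell_dot_U_top h h0
    · rw [Pi.single_eq_of_ne hi]
      change M i ⬝ᵥ v0 = _
      rw [hM, updateRow_ne hi]
      change ((1 - g) *ᵥ v0) i = 0
      rw [sub_mulVec, one_mulVec, hgv, sub_self]
      rfl
  have h3 : (adjugate M *ᵥ (M *ᵥ v0)) (Fin.last n) = det M * v0 (Fin.last n) := by
    rw [mulVec_mulVec, adjugate_mul, smul_mulVec, one_mulVec]
    rfl
  have h4 : (adjugate M *ᵥ (M *ᵥ v0)) (Fin.last n) =
      adjugate M (Fin.last n) (Fin.last n) * (s * U s (n + 1)) := by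
    rw [hMv]
    simp
  have h5 : adjugate M (Fin.last n) (Fin.last n) = det (1 - W s n (v ++ u)) := by
    rw [adjugate_fin_succ_eq_det_submatrix]
    have e : (M.submatrix (Fin.last n).succAbove (Fin.last n).succAbove) =
        1 - W s n (v ++ u) := by
      ext i j
      rw [submatrix_apply, Fin.succAbove_last, hM, updateRow_ne (Fin.castSucc_ne_last i),
        Matrix.sub_apply, Matrix.sub_apply, hg, W_castSucc hvu, one_apply, one_apply]
      simp
    rw [e]
    have e' : (-1 : ℂ) ^ (((Fin.last n : Fin (n + 1)) : ℕ) + ((Fin.last n : Fin (n + 1)) : ℕ)) = 1 := by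
      rw [← two_mul, pow_mul]
      simp
    rw [e', one_mul]
  rw [e1, e2, ← hM, ← h5]
  have h6 := h3.symm.trans h4
  rw [hv0] at h6
  simp only [Fin.val_last] at h6
  linear_combination h6

end Pool.Agent.Helper99.ZB
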