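import Pool.Agent.Helper99.ZB.Contr
import Pool.Agent.Helper76.Conway.TopRatio

/-!
# Zeros of the Conway polynomial of closures of positive braids: `|z| ^ 2 ≤ 8`
-/

set_option autoImplicit false

namespace Pool.Agent.Helper99.ZB

open Matrix Polynomial Pool.Agent.Helper76.Conway.Top

section eqv

variable {s : ℂ} {n : ℕ}

theorem W_eqv {u v : List ℕ} (h : Eqv n u v) : W s n u = W s n v := by
  induction h with
  | refl _ => rfl
  | trans _ _ h1 h2 => exact h1.trans h2
  | symm _ h => exact h.symm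
  | comm x y a b hab hb =>
    have := Bm_comm (s := s) hab hb
    simp only [W_append, W_cons]
    rw [← mul_assoc (Bm s n a), this, mul_assoc]
  | braid x y j hj =>
    have := Bm_braid (s := s) hj
    simp only [W_append, W_cons]
    rw [← mul_assoc (Bm s n (j + 1)), ← mul_assoc (Bm s n j) (Bm s n (j + 1) * Bm s n j),
      ← mul_assoc (Bm s n j) (Bm s n (j + 1)), this]
    simp only [mul_assoc]

end eqv

section compare

variable {G : ℕ → Type} [∀ n, Group (G n)] {sg : ∀ n, ℕ → G n} {N : ∀ n, G n → ℤ[X]}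

/-- the value of the Conway polynomial of a positive word in terms of the Burau matrices -/
theorem eval_eq (h : Mk G sg N) {s : ℂ} (h0 : s ≠ 0) (h1 : ‖s‖ < 1) : ∀ (n : ℕ) (w : List ℕ),
    (∀ a ∈ w, a < n) →
    aeval (s⁻¹ - s) (N n (V (sg n) w)) * s ^ w.length * U s n = det (1 - W s n w) := by
  have hq : s ^ 2 ≠ 1 := by
    intro hq
    have : ‖s ^ 2‖ = 1 := by rw [hq]; simp
    rw [norm_pow] at this
    exact absurd this (pow_lt_one₀ (norm_nonneg _) h1 (by norm_num)).ne
  have hz : (s⁻¹ - s) * s = 1 - s ^ 2 := by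
    field_simp
  intro n
  induction n with
  | zero =>
    intro w hw
    have hw0 : w = [] := by
      cases w with
      | nil => rfl
      | cons a u => exact absurd (hw a (by simp)) (by omega)
    subst hw0
    rw [V_nil, h.one, U_zero hq]
    simp
  | succ n ihn =>
    intro w hw
    refine word_ind (Pr := fun w =>
      aeval (s⁻¹ - s) (N (n + 1) (V (sg (n + 1)) w)) * s ^ w.length * U s (n + 1) =
        det (1 - W s (n + 1) w)) ?_ ?_ ?_ ?_ w hw
    · intro u v e hv
      rw [h.V_eqv e, e.length_eq, W_eqv e]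
      exact hv
    · intro x j y hb h2 h3
      have hj := hb j (by simp)
      rw [h.quad_word hj, det_sq hj, ← h2, ← h3]
      simp only [map_add, map_mul, aeval_X, List.length_append, List.length_cons]
      have e1 : s ^ (x.length + (y.length + 1 + 1)) = s ^ (x.length + y.length) * s ^ 2 := by ring
      have e2 : s ^ (x.length + (y.length + 1)) = s ^ (x.length + y.length) * s := by ring
      rw [e1, e2]
      linear_combination (aeval (s⁻¹ - s) (N (n + 1) (V (sg (n + 1)) (x ++ j :: y))) *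
        s ^ (x.length + y.length) * s * U s (n + 1)) * hz
    · intro u hu
      rw [h.top_zero hu, det_top_zero hu]
      simp
    · intro u v hu hv
      have h4 := det_top_one hq h0 hu hv
      have h5 := ihn (u ++ v) (by
        intro a ha
        rcases List.mem_append.1 ha with ha | ha
        · exact hu a ha
        · exact hv a ha)
      rw [h.destab hu hv]
      rw [← h5] at h4
      apply mul_left_cancel₀ (U_ne_zero h1 h0 n)
      rw [h4]
      simp only [List.length_append, List.length_cons]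
      ring

/-- every complex number is `1/s - s` with `|s| ≤ 1` -/
theorem exists_s (z : ℂ) : ∃ s : ℂ, s ≠ 0 ∧ ‖s‖ ≤ 1 ∧ z = s⁻¹ - s := by
  obtain ⟨d, hd⟩ := IsAlgClosed.exists_pow_nat_eq (z ^ 2 + 4) (n := 2) (by norm_num)
  have key : ∀ s : ℂ, s ^ 2 + z * s - 1 = 0 → s ≠ 0 ∧ z = s⁻¹ - s := by
    intro s hs
    have h0 : s ≠ 0 := by
      rintro rfl
      simp at hs
    refine ⟨h0, ?_⟩
    have e : z * s = 1 - s ^ 2 := by linear_combination hs
    apply mul_right_cancel₀ h0
    rw [e, sub_mul, inv_mul_cancel₀ h0]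
    ring
  have r1 : ((-z + d) / 2) ^ 2 + z * ((-z + d) / 2) - 1 = 0 := by
    linear_combination hd / 4
  have r2 : ((-z - d) / 2) ^ 2 + z * ((-z - d) / 2) - 1 = 0 := by
    linear_combination hd / 4
  have hp : ((-z + d) / 2) * ((-z - d) / 2) = -1 := by
    linear_combination -hd / 4
  have hn : ‖(-z + d) / 2‖ * ‖(-z - d) / 2‖ = 1 := by
    rw [← norm_mul, hp]
    simp
  by_cases h : ‖(-z + d) / 2‖ ≤ 1
  · exact ⟨_, (key _ r1).1, h, (key _ r1).2⟩
  · refine ⟨_, (key _ r2).1, ?_, (key _ r2).2⟩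
    push Not at h
    by_contra h'
    push Not at h'
    nlinarith

/-- **Zero bound.** -/
theorem zero_bound (h : Mk G sg N) {n : ℕ} {w : List ℕ} (hw : ∀ a ∈ w, a < n)
    (hf : ∀ a < n, a ∈ w) {z : ℂ} (hz : aeval z (N n (V (sg n) w)) = 0) :
    ‖z‖ ^ 2 ≤ 4 + 4 * Real.cos (Real.pi / (n + 1)) ^ 2 := by
  by_contra hlt
  push Not at hlt
  obtain ⟨κ, hκ⟩ : ∃ κ, κ = Real.cos (Real.pi / (n + 1)) := ⟨_, rfl⟩
  rw [← hκ] at hlt
  obtain ⟨s, h0, h1, rfl⟩ := exists_s z
  obtain ⟨x, hx⟩ : ∃ x, x = ‖s‖ := ⟨_, rfl⟩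
  have hx0 : 0 < x := by rw [hx]; exact norm_pos_iff.2 h0
  have hb : ‖s⁻¹ - s‖ ≤ x⁻¹ + x := by
    have := norm_sub_le s⁻¹ s
    rwa [norm_inv, ← hx] at this
  rw [← hx] at h1
  have hsq : 4 + 4 * κ ^ 2 < (x⁻¹ + x) ^ 2 :=
    lt_of_lt_of_le hlt (pow_le_pow_left₀ (norm_nonneg _) hb 2)
  have hxx : x⁻¹ * x = 1 := inv_mul_cancel₀ hx0.ne'
  have hdiff : (2 * κ) ^ 2 < (x⁻¹ - x) ^ 2 := by nlinarith
  have hge : 0 ≤ x⁻¹ - x := by
    have : 1 ≤ x⁻¹ := one_le_inv_iff₀.2 ⟨hx0, h1⟩
    linarith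
  have hκx : 2 * κ < x⁻¹ - x := by
    have := abs_lt_of_sq_lt_sq hdiff hge
    exact (le_abs_self _).trans_lt this
  have hsmall : x ^ 2 + 2 * κ * x < 1 := by
    have := mul_lt_mul_of_pos_right hκx hx0
    nlinarith
  have hlt1 : ‖s‖ < 1 := by
    rw [← hx]
    by_contra hx1
    have hx2 : x = 1 := le_antisymm h1 (not_lt.1 hx1)
    rw [hx2] at hdiff
    have := sq_nonneg (2 * κ)
    norm_num at hdiff
    linarith
  have e := eval_eq h h0 hlt1 n w hw
  rw [hz, zero_mul, zero_mul] at e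
  refine det_ne_zero (s := s) (wt_sin n) ?_ hf e.symm
  rw [← hx, ← hκ]
  exact hsmall

theorem zero_bound_eight (h : Mk G sg N) {n : ℕ} {w : List ℕ} (hw : ∀ a ∈ w, a < n)
    (hf : ∀ a < n, a ∈ w) {z : ℂ} (hz : aeval z (N n (V (sg n) w)) = 0) : ‖z‖ ^ 2 ≤ 8 := by
  have h1 := zero_bound h hw hf hz
  have h2 := Real.cos_sq_le_one (Real.pi / (n + 1))
  linarith

end compare

end Pool.Agent.Helper99.ZB
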