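import Pool.Agent.Helper99.ZB.Zero
import Pool.Agent.Helper49.ZB.Newton

/-!
# Log-concavity for a positive proportion of the top coefficients
-/

set_option autoImplicit false

namespace Pool.Agent.Helper99.ZB

open Polynomial Pool.Agent.Helper76.Conway.Top

/-- the coefficients vanish beyond `f` -/
theorem E_zero_of_lt {P : ℤ[X]} {μ F : ℕ} (hP : TopC P μ F) (hpos : Le 0 P) :
    ∀ k, F < k → E P μ k = 0 := by
  have key : ∀ k, F ≤ k → E P μ (k + 1) = 0 := by
    intro k hk
    have h1 := hP.up k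
    have h2 := E_nonneg hpos μ k
    have h3 := E_nonneg hpos μ (k + 1)
    have h4 : ((F : ℤ) - k) * E P μ k ≤ 0 :=
      mul_nonpos_of_nonpos_of_nonneg (by omega) h2
    have h5 : ((k : ℤ) + 1) * E P μ (k + 1) ≤ 0 := h1.trans h4
    by_contra hne
    have h6 : 0 < E P μ (k + 1) := lt_of_le_of_ne h3 (Ne.symm hne)
    have h7 : 0 < ((k : ℤ) + 1) * E P μ (k + 1) := mul_pos (by omega) h6
    omega
  intro k hk
  obtain ⟨m, rfl⟩ : ∃ m, k = m + 1 := ⟨k - 1, by omega⟩
  exact key m (by omega)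

/-- the reversed polynomial in `t = z ^ 2` -/
theorem aeval_eq {P : ℤ[X]} {μ F : ℕ} {f : ℤ} (hP : TopC P μ f)
    (hF : ∀ k, F < k → E P μ k = 0) (z : ℂ) :
    z ^ (2 * F) * aeval z P =
      z ^ μ * ∑ k ∈ Finset.range (F + 1), (((E P μ k : ℤ) : ℝ) : ℂ) * (z ^ 2) ^ (F - k) := by
  have hdeg : P.natDegree < μ + 1 := by
    rw [Nat.lt_succ_iff, natDegree_le_iff_coeff_eq_zero]
    intro j hj
    exact hP.deg j hj
  have e1 : aeval z P = ∑ j ∈ Finset.range (μ + 1), (P.coeff j : ℂ) * z ^ j := by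
    rw [aeval_eq_sum_range' hdeg]
    refine Finset.sum_congr rfl fun j _ => ?_
    simp
  have e2 : ∑ j ∈ Finset.range (μ + 1), (P.coeff j : ℂ) * z ^ j =
      ∑ k ∈ Finset.range (μ / 2 + 1), (P.coeff (μ - 2 * k) : ℂ) * z ^ (μ - 2 * k) := by
    symm
    have himg : ((Finset.range (μ / 2 + 1)).image fun k => μ - 2 * k) ⊆ Finset.range (μ + 1) := by
      intro j hj
      rw [Finset.mem_image] at hj
      obtain ⟨k, _, rfl⟩ := hj
      rw [Finset.mem_range]
      omega
    rw [← Finset.sum_subset himg, Finset.sum_image]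
    · intro a ha b hb hab
      rw [Finset.mem_coe, Finset.mem_range] at ha hb
      simp only at hab
      omega
    · intro j hj hj'
      rw [Finset.mem_range] at hj
      have hpar : (j + μ) % 2 = 1 := by
        by_contra h
        apply hj'
        rw [Finset.mem_image]
        exact ⟨(μ - j) / 2, by rw [Finset.mem_range]; omega, by omega⟩
      rw [hP.par j hpar]
      simp
  have e3 : ∑ k ∈ Finset.range (μ / 2 + 1), (P.coeff (μ - 2 * k) : ℂ) * z ^ (μ - 2 * k) =
      ∑ k ∈ Finset.range (μ + F + 1), ((E P μ k : ℤ) : ℂ) * z ^ (μ - 2 * k) := by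
    have e4 : ∑ k ∈ Finset.range (μ / 2 + 1), (P.coeff (μ - 2 * k) : ℂ) * z ^ (μ - 2 * k) =
        ∑ k ∈ Finset.range (μ / 2 + 1), ((E P μ k : ℤ) : ℂ) * z ^ (μ - 2 * k) := by
      refine Finset.sum_congr rfl fun k hk => ?_
      rw [Finset.mem_range] at hk
      unfold E
      rw [if_pos (by omega)]
    rw [e4]
    apply Finset.sum_subset
    · intro k hk
      rw [Finset.mem_range] at hk ⊢
      omega
    · intro k _ hk
      rw [Finset.mem_range] at hk
      unfold E
      rw [if_neg (by omega)]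
      simp
  have e5 : ∑ k ∈ Finset.range (F + 1), (((E P μ k : ℤ) : ℝ) : ℂ) * (z ^ 2) ^ (F - k) =
      ∑ k ∈ Finset.range (μ + F + 1), (((E P μ k : ℤ) : ℝ) : ℂ) * (z ^ 2) ^ (F - k) := by
    apply Finset.sum_subset
    · intro k hk
      rw [Finset.mem_range] at hk ⊢
      omega
    · intro k _ hk
      rw [Finset.mem_range] at hk
      rw [hF k (by omega)]
      simp
  rw [e1, e2, e3, e5, Finset.mul_sum, Finset.mul_sum]
  refine Finset.sum_congr rfl fun k _ => ?_
  by_cases h1 : E P μ k = 0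
  · rw [h1]
    simp
  · have h2 : 2 * k ≤ μ := by
      by_contra h
      apply h1
      unfold E
      rw [if_neg h]
    have h3 : k ≤ F := by
      by_contra h
      exact h1 (hF k (by omega))
    have e6 : z ^ (2 * F) * z ^ (μ - 2 * k) = z ^ μ * (z ^ 2) ^ (F - k) := by
      rw [← pow_add, ← pow_mul, ← pow_add]
      congr 1
      omega
    push_cast
    linear_combination (E P μ k : ℂ) * e6

/-- Newton's identities and the bound for the power sums; `F` is any bound for the number of roots. -/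
theorem exists_newton {P : ℤ[X]} {μ F : ℕ} {f : ℤ} (hP : TopC P μ f)
    (hF : ∀ k, F < k → E P μ k = 0) (hz : ∀ z : ℂ, aeval z P = 0 → ‖z‖ ^ 2 ≤ 8) :
    ∃ p : ℕ → ℝ, (∀ m, |p (m + 1)| ≤ F * 8 ^ (m + 1)) ∧
      ∀ k : ℕ, ((k : ℝ) + 1) * ((E P μ (k + 1) : ℤ) : ℝ) =
        ∑ i ∈ Finset.range (k + 1), (-1) ^ i * p (i + 1) * ((E P μ (k - i) : ℤ) : ℝ) := by
  refine Pool.Agent.Helper49.ZB.newton_seq F (fun k => ((E P μ k : ℤ) : ℝ)) ?_ ?_ ?_
  · simp only [hP.e0]
    simp
  · intro k hk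
    simp only [hF k hk]
    simp
  · intro t ht
    by_cases ht0 : t = 0
    · rw [ht0]
      simp
    · obtain ⟨z, hzt⟩ := IsAlgClosed.exists_pow_nat_eq t (n := 2) (by norm_num)
      have hz0 : z ≠ 0 := by
        rintro rfl
        apply ht0
        rw [← hzt]
        simp
      have h1 := aeval_eq hP hF z
      rw [hzt, ht, mul_zero] at h1
      have h2 : aeval z P = 0 := by
        rcases mul_eq_zero.1 h1 with h3 | h3
        · exact absurd h3 (pow_ne_zero _ hz0)
        · exact h3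
      have h3 := hz z h2
      rwa [← norm_pow, hzt] at h3

/-- log-concavity in the top range, from the zero bound -/
theorem logConcave_top {P : ℤ[X]} {μ F : ℕ} (hP : TopC P μ F) (hpos : Le 0 P)
    (hz : ∀ z : ℂ, aeval z P = 0 → ‖z‖ ^ 2 ≤ 8) (k : ℕ) (hk : 65 * (k + 1) ≤ F) :
    E P μ (k + 2) * E P μ k ≤ E P μ (k + 1) ^ 2 := by
  obtain ⟨p, hp, hN⟩ := exists_newton hP (E_zero_of_lt hP hpos) hz
  have h := Pool.Agent.Helper49.ZB.lc_of_newton (fun k => ((E P μ k : ℤ) : ℝ)) p F
    (fun k => by exact_mod_cast E_nonneg hpos μ k)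
    (by simp only [hP.e0]; simp) (by simp only [hP.e1]; simp)
    (fun k => by exact_mod_cast hP.lo k) (fun k => by exact_mod_cast hP.up k) hp hN k (by
    exact_mod_cast hk)
  exact_mod_cast h

end Pool.Agent.Helper99.ZB
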