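import Pool.Agent.Helper99.ZB.Burau

/-!
# A word that contains all letters is a strict contraction in a weighted sup norm
-/

set_option autoImplicit false

namespace Pool.Agent.Helper99.ZB

open Matrix

variable {s : ℂ} {n : ℕ}

theorem Bm_mulVec_apply (a : ℕ) (c : Fin n → ℂ) (i : Fin n) :
    (Bm s n a *ᵥ c) i = c i - if (i : ℕ) = a then ell s n a ⬝ᵥ c else 0 := by
  unfold Bm Pm
  rw [sub_mulVec, one_mulVec, vecMulVec_mulVec]
  by_cases h : (i : ℕ) = a
  · simp [del, h]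
  · simp [del, h]

/-- Weights `ω 0, ..., ω (n + 1)`; the coordinate `i` has the weight `ω (i + 1)`. -/
structure Wt (n : ℕ) (κ : ℝ) (ω : ℕ → ℝ) : Prop where
  nn : ∀ k, k ≤ n + 1 → 0 ≤ ω k
  pos : ∀ k, k < n → 0 < ω (k + 1)
  step : ∀ k, k < n → ω k + ω (k + 2) = 2 * κ * ω (k + 1)

/-- the new coordinate is a combination of at most three old ones -/
theorem norm_update {κ : ℝ} {ω : ℕ → ℝ} (hω : Wt n κ ω) (a : ℕ) (c : Fin n → ℂ) {M : ℝ}
    (hM0 : 0 ≤ M) (hM : ∀ i : Fin n, ‖c i‖ ≤ M * ω (i + 1)) (i : Fin n)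
    (hi : (i : ℕ) = a) : ‖(Bm s n a *ᵥ c) i‖ ≤ (‖s‖ ^ 2 + 2 * κ * ‖s‖) * (M * ω (i + 1)) := by
  rw [Bm_mulVec_apply, if_pos hi]
  -- extend `c` by zero
  obtain ⟨f, hf⟩ : ∃ f : ℕ → ℂ, f = fun k => if h : k < n then c ⟨k, h⟩ else 0 := ⟨_, rfl⟩
  have hfc : ∀ k : Fin n, c k = f k := by
    intro k
    rw [hf]
    simp
  have hfM : ∀ k, k ≤ n → ‖f k‖ ≤ M * ω (k + 1) := by
    intro k hk
    rw [hf]
    by_cases h : k < n
    · simp only [h, dif_pos]
      exact hM ⟨k, h⟩
    · simp only [h, dif_neg, not_false_iff, norm_zero]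
      exact mul_nonneg hM0 (hω.nn _ (by omega))
  have han : a < n := hi ▸ i.2
  have hdot : ell s n a ⬝ᵥ c = (1 + s ^ 2) * f a - s * (if 0 < a then f (a - 1) else 0) -
      s * f (a + 1) := by
    have e1 : ell s n a ⬝ᵥ c = ∑ k ∈ Finset.range n,
        (if k = a then 1 + s ^ 2 else if k + 1 = a ∨ a + 1 = k then -s else 0) * f k := by
      rw [Finset.sum_range]
      unfold dotProduct ell
      refine Finset.sum_congr rfl fun k _ => ?_
      rw [hfc k]
    have e2 : ∑ k ∈ Finset.range n,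
        (if k = a then 1 + s ^ 2 else if k + 1 = a ∨ a + 1 = k then -s else 0) * f k =
        ∑ k ∈ Finset.range (n + 2),
        (if k = a then 1 + s ^ 2 else if k + 1 = a ∨ a + 1 = k then -s else 0) * f k := by
      rw [Finset.sum_range_succ, Finset.sum_range_succ]
      have z1 : f n = 0 := by rw [hf]; simp
      have z2 : f (n + 1) = 0 := by rw [hf]; simp
      rw [z1, z2]
      simp
    rw [e1, e2]
    cases a with
    | zero =>
      rw [← Finset.sum_subset (s₁ := {0, 1})]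
      · rw [Finset.sum_insert (by simp), Finset.sum_singleton]
        simp
        ring
      · intro k hk
        simp only [Finset.mem_insert, Finset.mem_singleton] at hk
        rw [Finset.mem_range]
        omega
      · intro k _ hk
        simp only [Finset.mem_insert, Finset.mem_singleton, not_or] at hk
        rw [if_neg (by omega), if_neg (by omega), zero_mul]
    | succ a =>
      rw [← Finset.sum_subset (s₁ := {a, a + 1, a + 2})]
      · rw [Finset.sum_insert (by simp), Finset.sum_insert (by simp), Finset.sum_singleton]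
        rw [if_neg (by omega), if_pos (by omega), if_pos rfl, if_neg (by omega),
          if_pos (by omega), if_pos (by omega)]
        rw [Nat.add_sub_cancel]
        ring
      · intro k hk
        simp only [Finset.mem_insert, Finset.mem_singleton] at hk
        rw [Finset.mem_range]
        omega
      · intro k _ hk
        simp only [Finset.mem_insert, Finset.mem_singleton, not_or] at hk
        rw [if_neg (by omega), if_neg (by omega), zero_mul]
  have e : c i - ell s n a ⬝ᵥ c =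
      -(s ^ 2 * f a) + s * (if 0 < a then f (a - 1) else 0) + s * f (a + 1) := by
    rw [hdot, hfc i, hi]
    ring
  rw [e, hi]
  have b1 : ‖-(s ^ 2 * f a)‖ ≤ ‖s‖ ^ 2 * (M * ω (a + 1)) := by
    rw [norm_neg, norm_mul, norm_pow]
    exact mul_le_mul_of_nonneg_left (hfM _ han.le) (sq_nonneg _)
  have b2 : ‖s * (if 0 < a then f (a - 1) else 0)‖ ≤ ‖s‖ * (M * ω a) := by
    rw [norm_mul]
    refine mul_le_mul_of_nonneg_left ?_ (norm_nonneg _)
    split_ifs with h
    · have := hfM (a - 1) (by omega)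
      rwa [Nat.sub_add_cancel h] at this
    · rw [norm_zero]
      exact mul_nonneg hM0 (hω.nn _ (by omega))
  have b3 : ‖s * f (a + 1)‖ ≤ ‖s‖ * (M * ω (a + 2)) := by
    rw [norm_mul]
    exact mul_le_mul_of_nonneg_left (hfM _ (by omega)) (norm_nonneg _)
  have b4 : ‖-(s ^ 2 * f a) + s * (if 0 < a then f (a - 1) else 0) + s * f (a + 1)‖ ≤
      ‖-(s ^ 2 * f a)‖ + ‖s * (if 0 < a then f (a - 1) else 0)‖ + ‖s * f (a + 1)‖ :=
    norm_add₃_le
  have b5 := hω.step a han
  have b6 : ‖s‖ * (M * ω a) + ‖s‖ * (M * ω (a + 2)) = 2 * κ * ‖s‖ * (M * ω (a + 1)) := by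
    linear_combination (‖s‖ * M) * b5
  linarith

theorem norm_word {κ : ℝ} {ω : ℕ → ℝ} (hω : Wt n κ ω) (hs : ‖s‖ ^ 2 + 2 * κ * ‖s‖ ≤ 1)
    (c : Fin n → ℂ) {M : ℝ} (hM0 : 0 ≤ M)
    (hM : ∀ i : Fin n, ‖c i‖ ≤ M * ω (i + 1)) (u : List ℕ) (i : Fin n) :
    ‖(W s n u *ᵥ c) i‖ ≤ M * ω (i + 1) ∧
      ((i : ℕ) ∈ u → ‖(W s n u *ᵥ c) i‖ ≤ (‖s‖ ^ 2 + 2 * κ * ‖s‖) * (M * ω (i + 1))) := by
  induction u generalizing i with
  | nil =>
    rw [W_nil, one_mulVec]
    exact ⟨hM i, fun h => absurd h (List.not_mem_nil)⟩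
  | cons a u ih =>
    rw [W_cons, ← mulVec_mulVec]
    by_cases h : (i : ℕ) = a
    · have h1 := norm_update (s := s) hω a (W s n u *ᵥ c) hM0 (fun i => (ih i).1) i h
      refine ⟨h1.trans ?_, fun _ => h1⟩
      have := mul_le_mul_of_nonneg_right hs (mul_nonneg hM0 (hω.nn _ (by omega : (i : ℕ) + 1 ≤ n + 1)))
      rwa [one_mul] at this
    · rw [Bm_mulVec_apply, if_neg h, sub_zero]
      refine ⟨(ih i).1, fun hi => (ih i).2 ?_⟩
      rcases List.mem_cons.1 hi with hi | hi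
      · exact absurd hi h
      · exact hi

/-- **The determinant does not vanish** for small parameters. -/
theorem det_ne_zero {κ : ℝ} {ω : ℕ → ℝ} (hω : Wt n κ ω) (hs : ‖s‖ ^ 2 + 2 * κ * ‖s‖ < 1)
    {w : List ℕ} (hw : ∀ a < n, a ∈ w) : det (1 - W s n w) ≠ 0 := by
  intro h
  obtain ⟨c, hc0, hc⟩ := exists_mulVec_eq_zero_iff.2 h
  have hfix : W s n w *ᵥ c = c := by
    rw [sub_mulVec, one_mulVec, sub_eq_zero] at hc
    exact hc.symm
  obtain ⟨d, hd⟩ : ∃ d : Fin n → ℂ, d = fun i => c i / (ω (i + 1) : ℝ) := ⟨_, rfl⟩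
  have hdi : ∀ i : Fin n, ‖d i‖ * ω (i + 1) = ‖c i‖ := by
    intro i
    have := hω.pos i i.2
    rw [hd]
    simp only [norm_div, Complex.norm_real, Real.norm_of_nonneg this.le]
    field_simp
  have hcM : ∀ i : Fin n, ‖c i‖ ≤ ‖d‖ * ω (i + 1) := by
    intro i
    rw [← hdi i]
    exact mul_le_mul_of_nonneg_right (norm_le_pi_norm d i) (hω.pos i i.2).le
  have h1 : ∀ i, ‖d i‖ ≤ (‖s‖ ^ 2 + 2 * κ * ‖s‖) * ‖d‖ := by
    intro i
    have h2 := (norm_word hω hs.le c (norm_nonneg d) hcM w i).2 (hw i i.2)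
    rw [hfix, ← hdi i] at h2
    refine le_of_mul_le_mul_right ?_ (hω.pos i i.2)
    linarith
  have hne : d ≠ 0 := by
    intro h0
    apply hc0
    ext i
    have := hdi i
    rw [h0] at this
    simp only [Pi.zero_apply, norm_zero, zero_mul] at this
    rw [Pi.zero_apply]
    exact norm_eq_zero.1 this.symm
  have h3 : 0 < ‖d‖ := norm_pos_iff.2 hne
  have hn : 0 ≤ (‖s‖ ^ 2 + 2 * κ * ‖s‖) * ‖d‖ := by
    have hex : ∃ i, d i ≠ 0 := by
      by_contra hcon
      push Not at hcon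
      exact hne (funext hcon)
    obtain ⟨i, _⟩ := hex
    exact (norm_nonneg _).trans (h1 i)
  have h2 : ‖d‖ ≤ (‖s‖ ^ 2 + 2 * κ * ‖s‖) * ‖d‖ := (pi_norm_le_iff_of_nonneg hn).2 h1
  nlinarith

/-- the sine weights -/
theorem wt_sin (n : ℕ) :
    Wt n (Real.cos (Real.pi / (n + 1))) (fun k => Real.sin (k * (Real.pi / (n + 1)))) where
  nn k hk := by
    have hn : (0 : ℝ) < (n : ℝ) + 1 := by positivity
    apply Real.sin_nonneg_of_nonneg_of_le_pi
    · positivity
    · have hk' : (k : ℝ) ≤ (n : ℝ) + 1 := by exact_mod_cast hk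
      rw [← mul_div_assoc, div_le_iff₀ hn]
      nlinarith [Real.pi_pos]
  pos k hk := by
    have hn : (0 : ℝ) < (n : ℝ) + 1 := by positivity
    apply Real.sin_pos_of_pos_of_lt_pi
    · positivity
    · have hk' : ((k + 1 : ℕ) : ℝ) < (n : ℝ) + 1 := by exact_mod_cast Nat.succ_lt_succ hk
      rw [← mul_div_assoc, div_lt_iff₀ hn]
      nlinarith [Real.pi_pos]
  step k _ := by
    have e1 : ((k : ℕ) : ℝ) * (Real.pi / (n + 1)) =
        ((k + 1 : ℕ) : ℝ) * (Real.pi / (n + 1)) - Real.pi / (n + 1) := by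
      push_cast
      ring
    have e2 : ((k + 2 : ℕ) : ℝ) * (Real.pi / (n + 1)) =
        ((k + 1 : ℕ) : ℝ) * (Real.pi / (n + 1)) + Real.pi / (n + 1) := by
      push_cast
      ring
    simp only [e1, e2, Real.sin_sub, Real.sin_add]
    ring

end Pool.Agent.Helper99.ZB
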