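import Pool.Agent.Helper99.ZB.Bridge
import Pool.Agent.Helper49.ZB.Half

/-!
# Log-concavity in the top range, prime case
-/

set_option autoImplicit false

namespace Pool.Agent.Helper99.ZB

open Polynomial Pool.Agent.Helper76.Conway.Top

/-- log-concavity in the top range if the degree is at most `F + 1` -/
theorem logConcave_half {P : ℤ[X]} {μ F : ℕ} (hP : TopC P μ F) (hpos : Le 0 P)
    (hz : ∀ z : ℂ, aeval z P = 0 → ‖z‖ ^ 2 ≤ 8) (hμ : μ ≤ F + 1) (k : ℕ)
    (hk : 52 * (k + 1) ≤ F) : E P μ (k + 2) * E P μ k ≤ E P μ (k + 1) ^ 2 := by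
  obtain ⟨p, hp, hN⟩ := exists_newton (F := μ / 2) hP (by
    intro k hk
    unfold E
    rw [if_neg (by omega)]) hz
  have hhalf : ((μ / 2 : ℕ) : ℝ) ≤ 0.51 * (F : ℝ) := by
    have h1 : 2 * (μ / 2) ≤ F + 1 := by omega
    have h2 : (2 : ℝ) * ((μ / 2 : ℕ) : ℝ) ≤ (F : ℝ) + 1 := by exact_mod_cast h1
    have h3 : (52 : ℝ) ≤ (F : ℝ) := by
      have : 52 ≤ F := by omega
      exact_mod_cast this
    linarith
  have h := Pool.Agent.Helper49.ZB.lc_of_newton_half (fun k => ((E P μ k : ℤ) : ℝ)) p F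
    (fun k => by exact_mod_cast E_nonneg hpos μ k)
    (by simp only [hP.e0]; simp) (by simp only [hP.e1]; simp)
    (fun k => by exact_mod_cast hP.lo k) (fun k => by exact_mod_cast hP.up k)
    (fun m => (hp m).trans (mul_le_mul_of_nonneg_right hhalf (by positivity))) hN k (by
    exact_mod_cast hk)
  exact_mod_cast h

end Pool.Agent.Helper99.ZB
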